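import Pool.Agent.N463.MI.Stm

/-!
Project MI, part A05: the logarithmic upper bound for `|FF|`.
-/

set_option autoImplicit false

open Complex

namespace Pool.Agent.N300.MI

open Pool.Agent.N463.MI

theorem exp_lt_one' {x : ℝ} (hx : x < 0) : Real.exp x < 1 := by
  rw [← Real.exp_zero]
  exact Real.exp_lt_exp.2 hx

theorem norm_pt (t θ : ℝ) : ‖pt t θ‖ = Real.exp (-t) := by
  unfold pt
  rw [norm_exp]
  congr 1
  simp

theorem pt_pow (t θ : ℝ) (m : ℕ) : pt t θ ^ m = pt ((m : ℝ) * t) ((m : ℝ) * θ) := by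
  unfold pt
  rw [← Complex.exp_nat_mul]
  congr 1
  push_cast
  ring

theorem pt_eq (s φ : ℝ) :
    pt s φ = ((Real.exp (-s) * Real.cos φ : ℝ) : ℂ) + ((Real.exp (-s) * Real.sin φ : ℝ) : ℂ) * I := by
  unfold pt
  rw [Complex.exp_add, Complex.exp_mul_I]
  push_cast
  ring

theorem re_w {s : ℝ} (hs : 0 < s) (φ : ℝ) :
    (pt s φ / (1 - pt s φ)).re = (kr s φ - 1) / 2 := by
  have hE0 : 0 < Real.exp (-s) := Real.exp_pos _
  have hE1 : Real.exp (-s) < 1 := exp_lt_one' (by linarith)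
  have hEi : Real.exp s = (Real.exp (-s))⁻¹ := by rw [Real.exp_neg, inv_inv]
  have hc1 := Real.neg_one_le_cos φ
  have hc2 := Real.cos_le_one φ
  have hsc := Real.sin_sq_add_cos_sq φ
  rw [Complex.div_re, pt_eq]
  unfold kr
  rw [Real.sinh_eq, Real.cosh_eq, hEi]
  generalize Real.exp (-s) = E at *
  generalize Real.cos φ = c at *
  generalize Real.sin φ = d at *
  simp only [Complex.add_re, Complex.ofReal_re, Complex.mul_re, Complex.I_re, mul_zero,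
    Complex.ofReal_im, Complex.I_im, mul_one, sub_self, add_zero, Complex.sub_re, Complex.one_re,
    Complex.normSq_apply, Complex.sub_im, Complex.one_im, Complex.add_im, Complex.mul_im,
    zero_add, zero_sub]
  have h1 : 0 < 1 - 2 * E * c + E ^ 2 := by nlinarith [sq_nonneg (1 - E)]
  have h2 : (1 - E * c) * (1 - E * c) + -(E * d) * -(E * d) = 1 - 2 * E * c + E ^ 2 := by
    linear_combination E ^ 2 * hsc
  rw [h2]
  have h3 : (E⁻¹ + E) / 2 - c = (1 - 2 * E * c + E ^ 2) / (2 * E) := by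
    field_simp
    ring
  rw [h3]
  have h4 : (E⁻¹ - E) / 2 / ((1 - 2 * E * c + E ^ 2) / (2 * E)) =
      (1 - E ^ 2) / (1 - 2 * E * c + E ^ 2) := by
    field_simp
  rw [h4]
  have h5 : ((1 - E ^ 2) / (1 - 2 * E * c + E ^ 2) - 1) / 2 =
      (E * c - E ^ 2) / (1 - 2 * E * c + E ^ 2) := by
    rw [div_sub_one h1.ne', div_div, mul_comm (1 - 2 * E * c + E ^ 2) 2, ← div_div]
    congr 1
    ring
  rw [h5, ← add_div]
  congr 1
  linear_combination (-E ^ 2) * hsc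

/-- the logarithmic coefficients -/
noncomputable def cz (z : ℂ) (j : ℕ) : ℂ := (-1) ^ j * z ^ (j + 1) / ((j : ℂ) + 1)

theorem norm_PP (h4 : A04) {z q : ℂ} (hz : ‖z‖ ≤ 1) (hq : ‖q‖ < 1) :
    Summable (fun j : ℕ => (cz z j * (q ^ (j + 1) / (1 - q ^ (j + 1)))).re) ∧
    ‖PP z q‖ = Real.exp (∑' j : ℕ, (cz z j * (q ^ (j + 1) / (1 - q ^ (j + 1)))).re) := by
  obtain ⟨hs, he⟩ := h4 z q hz hq
  refine ⟨(Complex.hasSum_re hs.hasSum).summable, ?_⟩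
  rw [he, norm_exp, Complex.re_tsum hs]
  rfl

theorem cz_sum (a ψ : ℝ) (j : ℕ) (w : ℂ) :
    (cz (Complex.exp ((ψ : ℝ) * I))⁻¹ j * w).re + (cz (Complex.exp ((ψ : ℝ) * I)) j * w).re
      - (cz ((a : ℂ)⁻¹) j * w).re - (cz 1 j * w).re = cf a ψ j / (j + 1) * w.re := by
  rw [← Complex.add_re, ← Complex.sub_re, ← Complex.sub_re]
  have h1 : Complex.exp ((ψ : ℝ) * I) ^ (j + 1) + (Complex.exp ((ψ : ℝ) * I))⁻¹ ^ (j + 1)
      = ((2 * Real.cos ((j + 1 : ℕ) * ψ) : ℝ) : ℂ) := by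
    rw [← Complex.exp_neg, ← Complex.exp_nat_mul, ← Complex.exp_nat_mul]
    have h2 : ((j + 1 : ℕ) : ℂ) * ((ψ : ℂ) * I) = ((((j + 1 : ℕ) : ℝ) * ψ : ℝ) : ℂ) * I := by
      push_cast
      ring
    have h3 : ((j + 1 : ℕ) : ℂ) * -((ψ : ℂ) * I) = -((((j + 1 : ℕ) : ℝ) * ψ : ℝ) : ℂ) * I := by
      push_cast
      ring
    rw [h2, h3]
    push_cast
    rw [Complex.two_cos]
  have h5 : cz (Complex.exp ((ψ : ℝ) * I))⁻¹ j * w + cz (Complex.exp ((ψ : ℝ) * I)) j * w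
      - cz ((a : ℂ)⁻¹) j * w - cz 1 j * w = ((cf a ψ j / (j + 1) : ℝ) : ℂ) * w := by
    have h6 : ((cf a ψ j / (j + 1) : ℝ) : ℂ) = (-1) ^ j * ((Complex.exp ((ψ : ℝ) * I) ^ (j + 1)
        + (Complex.exp ((ψ : ℝ) * I))⁻¹ ^ (j + 1)) - 1 - (a : ℂ)⁻¹ ^ (j + 1)) / ((j : ℂ) + 1) := by
      rw [h1]
      unfold cf
      push_cast
      rfl
    rw [h6]
    unfold cz
    rw [one_pow]
    ring
  rw [h5, Complex.re_ofReal_mul]

/-- A05 -/
theorem t_A05 (h1 : A01) (h3 : A03) (h4 : A04) : A05 := by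
  intro a K θ ha hK t ht
  have hL : 0 < Real.log a := Real.log_pos ha
  have hK0 : (0 : ℝ) < K := by exact_mod_cast hK
  have ht0 : 0 < t := by rw [ht]; positivity
  have ha0 : 0 < a := by linarith
  have hq : ‖pt t θ‖ < 1 := by
    rw [norm_pt]
    exact exp_lt_one' (by linarith)
  set ζ : ℂ := Complex.exp ((K * θ : ℝ) * I) with hζ
  have hζn : ‖ζ‖ = 1 := by rw [hζ]; exact Complex.norm_exp_ofReal_mul_I _
  have hζi : ‖ζ⁻¹‖ = 1 := by rw [norm_inv, hζn, inv_one]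
  have hai : ‖(a : ℂ)⁻¹‖ ≤ 1 := by
    rw [norm_inv, Complex.norm_real, Real.norm_of_nonneg ha0.le]
    exact inv_le_one_of_one_le₀ ha.le
  obtain ⟨s1, e1⟩ := norm_PP h4 hζi.le hq
  obtain ⟨s2, e2⟩ := norm_PP h4 hζn.le hq
  obtain ⟨s3, e3⟩ := norm_PP h4 hai hq
  obtain ⟨s4, e4⟩ := norm_PP h4 (z := 1) (by simp) hq
  have hterm : ∀ j : ℕ, cf a (K * θ) j / (j + 1) *
      ((kr ((j + 1 : ℕ) * t) ((j + 1 : ℕ) * θ) - 1) / 2) =
      (cz ζ⁻¹ j * (pt t θ ^ (j + 1) / (1 - pt t θ ^ (j + 1)))).re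
      + (cz ζ j * (pt t θ ^ (j + 1) / (1 - pt t θ ^ (j + 1)))).re
      - (cz ((a : ℂ)⁻¹) j * (pt t θ ^ (j + 1) / (1 - pt t θ ^ (j + 1)))).re
      - (cz 1 j * (pt t θ ^ (j + 1) / (1 - pt t θ ^ (j + 1)))).re := by
    intro j
    rw [hζ, cz_sum, pt_pow, re_w (by positivity)]
  have hsum := ((s1.add s2).sub s3).sub s4
  have htsum : (∑' j : ℕ, cf a (K * θ) j / (j + 1) *
      ((kr ((j + 1 : ℕ) * t) ((j + 1 : ℕ) * θ) - 1) / 2)) =
      (∑' j : ℕ, (cz ζ⁻¹ j * (pt t θ ^ (j + 1) / (1 - pt t θ ^ (j + 1)))).re)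
      + (∑' j : ℕ, (cz ζ j * (pt t θ ^ (j + 1) / (1 - pt t θ ^ (j + 1)))).re)
      - (∑' j : ℕ, (cz ((a : ℂ)⁻¹) j * (pt t θ ^ (j + 1) / (1 - pt t θ ^ (j + 1)))).re)
      - (∑' j : ℕ, (cz 1 j * (pt t θ ^ (j + 1) / (1 - pt t θ ^ (j + 1)))).re) := by
    rw [← s1.tsum_add s2, ← (s1.add s2).tsum_sub s3, ← ((s1.add s2).sub s3).tsum_sub s4]
    exact tsum_congr hterm
  refine ⟨hsum.congr fun j => (hterm j).symm, ?_⟩
  have hmain := h3 a K θ ha hK t ht ζ hζ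
  have hnn := congrArg norm hmain
  simp only [norm_mul] at hnn
  rw [e1, e2, e3, norm_pow, norm_pow, norm_pt, Complex.norm_real, Real.norm_of_nonneg ha0.le] at hnn
  have hone : ‖(1 : ℂ) + (a : ℂ)⁻¹‖ = 1 + a⁻¹ := by
    have h5 : (1 : ℂ) + (a : ℂ)⁻¹ = ((1 + a⁻¹ : ℝ) : ℂ) := by push_cast; rfl
    rw [h5, Complex.norm_real, Real.norm_of_nonneg (by positivity)]
  rw [hone] at hnn
  have htwo : ‖(1 : ℂ) + ζ⁻¹‖ ≤ 2 := by
    calc ‖(1 : ℂ) + ζ⁻¹‖ ≤ ‖(1 : ℂ)‖ + ‖ζ⁻¹‖ := norm_add_le _ _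
      _ = 2 := by rw [hζi, norm_one]; norm_num
  have hpow : a ^ K * Real.exp (-t) ^ (K * (K + 1) / 2) =
      Real.exp ((Real.log a) ^ 2 / (2 * t) - Real.log a / 2) := by
    have h6 : a ^ K = Real.exp (K * Real.log a) := by
      rw [Real.exp_nat_mul, Real.exp_log ha0]
    have h7 : ((K * (K + 1) / 2 : ℕ) : ℝ) = (K : ℝ) * (K + 1) / 2 := by
      rw [Nat.cast_div (even_iff_two_dvd.1 (Nat.even_mul_succ_self K)) (by norm_num)]
      push_cast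
      ring
    rw [h6, ← Real.exp_nat_mul, ← Real.exp_add, h7]
    congr 1
    rw [ht]
    field_simp
    ring
  rw [htsum]
  have hPP1 : ‖FF a (pt t θ)‖ = ‖PP (a : ℂ) (pt t θ)‖ / ‖PP 1 (pt t θ)‖ := by
    unfold FF
    rw [norm_div]
  rw [hPP1, e4]
  set A1 := ∑' j : ℕ, (cz ζ⁻¹ j * (pt t θ ^ (j + 1) / (1 - pt t θ ^ (j + 1)))).re
  set A2 := ∑' j : ℕ, (cz ζ j * (pt t θ ^ (j + 1) / (1 - pt t θ ^ (j + 1)))).re
  set A3 := ∑' j : ℕ, (cz ((a : ℂ)⁻¹) j * (pt t θ ^ (j + 1) / (1 - pt t θ ^ (j + 1)))).re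
  set A4 := ∑' j : ℕ, (cz 1 j * (pt t θ ^ (j + 1) / (1 - pt t θ ^ (j + 1)))).re
  rw [hpow] at hnn
  have hia : 0 < 1 + a⁻¹ := by positivity
  rw [div_le_iff₀ (Real.exp_pos _)]
  have h8 : ‖PP (a : ℂ) (pt t θ)‖ * ((1 + a⁻¹) * Real.exp A3) ≤
      Real.exp ((Real.log a) ^ 2 / (2 * t) - Real.log a / 2) * (2 * Real.exp A1) * Real.exp A2 := by
    rw [hnn]
    gcongr
  have h9 : 2 / (1 + a⁻¹) * Real.exp ((Real.log a) ^ 2 / (2 * t) - Real.log a / 2 +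
      (A1 + A2 - A3 - A4)) * Real.exp A4 * ((1 + a⁻¹) * Real.exp A3) =
      Real.exp ((Real.log a) ^ 2 / (2 * t) - Real.log a / 2) * (2 * Real.exp A1) * Real.exp A2 := by
    have h10 : Real.exp ((Real.log a) ^ 2 / (2 * t) - Real.log a / 2 + (A1 + A2 - A3 - A4)) *
        Real.exp A4 * Real.exp A3 =
        Real.exp ((Real.log a) ^ 2 / (2 * t) - Real.log a / 2) * Real.exp A1 * Real.exp A2 := by
      rw [← Real.exp_add, ← Real.exp_add, ← Real.exp_add, ← Real.exp_add]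
      congr 1
      ring
    calc _ = (2 * (1 + a⁻¹) / (1 + a⁻¹)) * (Real.exp ((Real.log a) ^ 2 / (2 * t) - Real.log a / 2 +
          (A1 + A2 - A3 - A4)) * Real.exp A4 * Real.exp A3) := by ring
      _ = _ := by
        rw [h10, mul_div_assoc, div_self hia.ne']
        ring
  have h11 : 0 < (1 + a⁻¹) * Real.exp A3 := by positivity
  refine le_of_mul_le_mul_right ?_ h11
  rw [h9]
  exact h8

end Pool.Agent.N300.MI
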